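import Pool.Agent.Y377.IL.Stm

/-!
# IL-PC: entire functions integral over the polynomials (project IL)
-/

set_option autoImplicit false

namespace Pool.Agent.Y87.IL

open Polynomial Complex

theorem gpoly (p : Polynomial ℂ) : ∃ (C : ℝ) (d : ℕ), 0 ≤ C ∧ ∀ z : ℂ, ‖p.eval z‖ ≤ C * (1 + ‖z‖) ^ d := by
  refine ⟨∑ i ∈ Finset.range (p.natDegree + 1), ‖p.coeff i‖, p.natDegree,
    Finset.sum_nonneg fun _ _ => norm_nonneg _, fun z => ?_⟩
  rw [eval_eq_sum_range, Finset.sum_mul]
  refine (norm_sum_le _ _).trans (Finset.sum_le_sum fun i hi => ?_)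
  rw [norm_mul, norm_pow]
  have h1 : i ≤ p.natDegree := by have := Finset.mem_range.1 hi; omega
  have h2 : ‖z‖ ^ i ≤ (1 + ‖z‖) ^ p.natDegree := by
    calc ‖z‖ ^ i ≤ (1 + ‖z‖) ^ i := by
          have := norm_nonneg z
          gcongr
          linarith
      _ ≤ (1 + ‖z‖) ^ p.natDegree := by
          apply pow_le_pow_right₀ _ h1
          have := norm_nonneg z
          linarith
  gcongr

theorem poly_of_growth (f : ℂ → ℂ) (hf : Differentiable ℂ f) (C : ℝ) (d : ℕ) (hC : 0 ≤ C)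
    (h : ∀ z, ‖f z‖ ≤ C * (1 + ‖z‖) ^ d) : ∃ p : Polynomial ℂ, ∀ z, f z = p.eval z := by
  have h0 : ∀ k, d < k → iteratedDeriv k f 0 = 0 := by
    intro k hk
    by_contra hne
    have hpos : 0 < ‖iteratedDeriv k f 0‖ := norm_pos_iff.2 hne
    set A := (k.factorial : ℝ) * (C * 2 ^ d) with hA
    have hA0 : 0 ≤ A := by positivity
    have key : ∀ R : ℝ, 1 ≤ R → ‖iteratedDeriv k f 0‖ ≤ A / R := by
      intro R hR
      have hR0 : 0 < R := by linarith
      have h1 := Complex.norm_iteratedDeriv_le_of_forall_mem_sphere_norm_le (c := 0) (R := R)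
        (C := C * (1 + R) ^ d) (f := f) k hR0 hf.diffContOnCl (fun z hz => by
          have h2 : ‖z‖ = R := by simpa using hz
          have h3 := h z
          rwa [h2] at h3)
      refine h1.trans ?_
      have h2 : (1 + R) ^ d ≤ (2 * R) ^ d := by
        gcongr
        linarith
      have h3 : R ^ (d + 1) ≤ R ^ k := pow_le_pow_right₀ hR hk
      rw [div_le_div_iff₀ (by positivity) hR0]
      calc (k.factorial : ℝ) * (C * (1 + R) ^ d) * R
          ≤ (k.factorial : ℝ) * (C * (2 * R) ^ d) * R := by gcongr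
        _ = A * R ^ (d + 1) := by rw [hA, mul_pow]; ring
        _ ≤ A * R ^ k := by gcongr
    have h4 := key (max 1 (2 * A / ‖iteratedDeriv k f 0‖)) (le_max_left _ _)
    set R := max 1 (2 * A / ‖iteratedDeriv k f 0‖) with hR
    have hR1 : 1 ≤ R := le_max_left _ _
    have hR2 : 2 * A / ‖iteratedDeriv k f 0‖ ≤ R := le_max_right _ _
    rw [div_le_iff₀ hpos] at hR2
    rw [le_div_iff₀ (by linarith)] at h4
    have h5 : 0 < R * ‖iteratedDeriv k f 0‖ := by positivity
    nlinarith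
  refine ⟨∑ k ∈ Finset.range (d + 1), Polynomial.C ((k.factorial : ℂ)⁻¹ * iteratedDeriv k f 0) *
    X ^ k, fun z => ?_⟩
  have h1 := Complex.taylorSeries_eq_of_entire' (f := f) 0 z hf
  rw [← h1, eval_finsetSum, tsum_eq_sum (s := Finset.range (d + 1))]
  · refine Finset.sum_congr rfl fun k _ => ?_
    simp
  · intro k hk
    rw [h0 k (by simpa [Nat.lt_succ_iff] using hk)]
    simp

theorem t_PC : Pool.Agent.Y377.IL.S_PC := by
  intro f hf P hP h
  classical
  by_cases hm : P.natDegree = 0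
  · have h1 : P = 1 := Polynomial.eq_one_of_monic_natDegree_zero hP hm
    have h2 := h 0
    rw [h1] at h2
    simp at h2
  choose c d hc hcd using gpoly
  set m := P.natDegree with hmd
  obtain ⟨m', hm'⟩ : ∃ m', m = m' + 1 := ⟨m - 1, by omega⟩
  set Cc := ∑ i ∈ Finset.range m, c (P.coeff i) with hCc
  set Dd := ∑ i ∈ Finset.range m, d (P.coeff i) with hDd
  have hCc0 : 0 ≤ Cc := Finset.sum_nonneg fun i _ => hc _
  apply poly_of_growth f hf (1 + Cc) Dd (by linarith)
  intro z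
  have hz1 : (1 : ℝ) ≤ 1 + ‖z‖ := by have := norm_nonneg z; linarith
  have hS : ∑ i ∈ Finset.range m, ‖(P.coeff i).eval z‖ ≤ Cc * (1 + ‖z‖) ^ Dd := by
    rw [hCc, Finset.sum_mul]
    refine Finset.sum_le_sum fun i hi => (hcd _ z).trans ?_
    have h1 : d (P.coeff i) ≤ Dd := Finset.single_le_sum (f := fun i => d (P.coeff i))
      (fun _ _ => Nat.zero_le _) hi
    have := hc (P.coeff i)
    gcongr
  have hD1 : (1 : ℝ) ≤ (1 + ‖z‖) ^ Dd := one_le_pow₀ hz1
  rcases le_or_gt ‖f z‖ 1 with hw | hw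
  · have : 0 ≤ Cc * (1 + ‖z‖) ^ Dd := by positivity
    linarith
  · have h1 := h z
    rw [eval_map, eval₂_eq_sum_range, Finset.sum_range_succ] at h1
    have hlead : P.coeff P.natDegree = 1 := hP
    rw [hlead, map_one, one_mul, ← hmd] at h1
    have h2 : f z ^ m = -∑ i ∈ Finset.range m, (P.coeff i).eval z * f z ^ i := by
      rw [eq_neg_iff_add_eq_zero, add_comm]
      exact h1
    have h3 : ‖f z‖ ^ m ≤ (∑ i ∈ Finset.range m, ‖(P.coeff i).eval z‖) * ‖f z‖ ^ m' := by
      rw [← norm_pow, h2, norm_neg, Finset.sum_mul]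
      refine (norm_sum_le _ _).trans (Finset.sum_le_sum fun i hi => ?_)
      rw [norm_mul, norm_pow]
      have h4 : i ≤ m' := by have := Finset.mem_range.1 hi; omega
      have h5 : ‖f z‖ ^ i ≤ ‖f z‖ ^ m' := pow_le_pow_right₀ hw.le h4
      gcongr
    rw [hm', pow_succ, mul_comm] at h3
    have h4 : 0 < ‖f z‖ ^ m' := by positivity
    have h5 : ‖f z‖ ≤ ∑ i ∈ Finset.range m, ‖(P.coeff i).eval z‖ := by
      rw [← hm'] at h3
      exact le_of_mul_le_mul_right h3 h4
    have h6 : (0:ℝ) ≤ (1 + ‖z‖) ^ Dd := by positivity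
    linarith

end Pool.Agent.Y87.IL
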