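import Pool.Agent.Y377.IL.Stm

/-!
# IL-PROP: extended ideals stay proper (project IL)
-/

set_option autoImplicit false

namespace Pool.Agent.Y87.IL

open MvPolynomial Pool.Agent.Y377.IL

section lam

variable {K : Type} [Field K] [Algebra ℂ K] (L : Subalgebra ℂ K)

theorem exists_lam (hL : ∀ x ∈ L, x⁻¹ ∈ L) : ∃ lam : K →ₗ[L] L, lam 1 = 1 := by
  set L' : IntermediateField ℂ K := L.toIntermediateField hL with hL'
  obtain ⟨g, hg⟩ := LinearMap.exists_leftInverse_of_injective (Algebra.linearMap L' K)
    (LinearMap.ker_eq_bot.2 (algebraMap L' K).injective)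
  refine ⟨{ toFun := fun x => ⟨(g x : K), (g x).2⟩, map_add' := ?_, map_smul' := ?_ }, ?_⟩
  · intro x y
    apply Subtype.ext
    have := g.map_add x y
    rw [this]
    rfl
  · intro r x
    apply Subtype.ext
    have := g.map_smul (⟨(r : K), r.2⟩ : L') x
    change ((g (r • x) : L') : K) = (r : K) * (g x : K)
    have e : (r • x : K) = (⟨(r : K), r.2⟩ : L') • x := rfl
    rw [e, this]
    rfl
  · apply Subtype.ext
    have := LinearMap.congr_fun hg 1
    change ((g 1 : L') : K) = 1
    have e : g 1 = 1 := by simpa using this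
    rw [e]
    rfl

variable {L} {σ : Type}

/-- apply a linear map to the coefficients -/
noncomputable def Lam (lam : K →ₗ[L] L) : MvPolynomial σ K →+ MvPolynomial σ L :=
  ((basisMonomials σ L).repr.symm.toLinearMap.toAddMonoidHom.comp
    (Finsupp.mapRange.addMonoidHom lam.toAddMonoidHom)).comp
    (basisMonomials σ K).repr.toLinearMap.toAddMonoidHom

theorem coeff_Lam (lam : K →ₗ[L] L) (f : MvPolynomial σ K) (m : σ →₀ ℕ) :
    coeff m (Lam lam f) = lam (coeff m f) := by
  have h1 : ∀ g : MvPolynomial σ L, coeff m g = (basisMonomials σ L).repr g m := fun g => rfl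
  have h2 : coeff m f = (basisMonomials σ K).repr f m := rfl
  rw [h1, h2]
  change (basisMonomials σ L).repr ((basisMonomials σ L).repr.symm
    (Finsupp.mapRange.addMonoidHom lam.toAddMonoidHom ((basisMonomials σ K).repr f))) m = _
  rw [LinearEquiv.apply_symm_apply]
  rfl

theorem Lam_mul (lam : K →ₗ[L] L) (f : MvPolynomial σ K) (q : MvPolynomial σ L) :
    Lam lam (f * map (algebraMap L K) q) = Lam lam f * q := by
  classical
  ext m
  rw [coeff_Lam, coeff_mul, coeff_mul, map_sum]
  refine congrArg _ (Finset.sum_congr rfl fun p _ => ?_)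
  rw [coeff_Lam, coeff_map, mul_comm, ← Algebra.smul_def, map_smul, smul_eq_mul, mul_comm]

end lam

theorem t_PROP : Pool.Agent.Y377.IL.S_PROP := by
  intro K _ _ L hL n A B hAB Q hQ
  classical
  intro hcon
  obtain ⟨lam, hlam⟩ := exists_lam L hL
  let θ : MvPolynomial (Sg n) K →ₐ[K] MvPolynomial (Sg n) K := aeval (Sum.elim
    (fun p => ∑ k, C (B p.1 k) * MvPolynomial.X (Sum.inl (k, p.2)))
    (fun p => ∑ k, MvPolynomial.X (Sum.inr (p.1, k)) * C (A k p.2)))
  have hθl : ∀ p, θ (X (Sum.inl p)) = ∑ k, C (B p.1 k) * MvPolynomial.X (Sum.inl (k, p.2)) := by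
    intro p
    simp [θ]
  have hθr : ∀ p, θ (X (Sum.inr p)) = ∑ k, MvPolynomial.X (Sum.inr (p.1, k)) * C (A k p.2) := by
    intro p
    simp [θ]
  have hθC : ∀ c, θ (C c) = C c := by
    intro c
    simp [θ, algebraMap_eq]
  have hAB' : ∀ i j, ∑ k, A i k * B k j = if i = j then 1 else 0 := by
    intro i j
    have := congrFun (congrFun hAB i) j
    rw [Matrix.mul_apply, Matrix.one_apply] at this
    exact this
  have hθ : ∀ q : MvPolynomial (Sg n) L, θ (aeval (subs A B) q) = map (algebraMap L K) q := by
    intro q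
    have e : θ.toRingHom.comp (aeval (subs A B) : MvPolynomial (Sg n) L →ₐ[L] _).toRingHom =
        map (algebraMap L K) := by
      apply MvPolynomial.ringHom_ext
      · intro r
        change θ (aeval (subs A B) (C r)) = _
        rw [aeval_C, map_C, IsScalarTower.algebraMap_apply L K (MvPolynomial (Sg n) K), algebraMap_eq,
          hθC]
      · rintro (⟨i, j⟩ | ⟨i, j⟩)
        · change θ (aeval (subs A B) (X _)) = _
          rw [aeval_X, map_X]
          simp only [subs, Sum.elim_inl, map_sum, map_mul, hθC, hθl]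
          simp only [Finset.mul_sum, ← mul_assoc, ← C_mul]
          rw [Finset.sum_comm]
          simp only [← Finset.sum_mul, ← map_sum, hAB']
          simp [apply_ite]
        · change θ (aeval (subs A B) (X _)) = _
          rw [aeval_X, map_X]
          simp only [subs, Sum.elim_inr, map_sum, map_mul, hθC, hθr]
          simp only [Finset.sum_mul, mul_assoc, ← C_mul]
          rw [Finset.sum_comm]
          simp only [← Finset.mul_sum, ← map_sum, hAB']
          simp [apply_ite]
    exact DFunLike.congr_fun e q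
  have key : ∀ g ∈ Ideal.span ((fun q => aeval (subs A B) q) ''
      (Q : Set (MvPolynomial (Sg n) L))), ∀ a, Lam lam (a * θ g) ∈ Q := by
    intro g hg
    induction hg using Submodule.span_induction with
    | mem g hg =>
      intro a
      obtain ⟨q, hq, rfl⟩ := hg
      rw [hθ, Lam_mul]
      exact Q.mul_mem_left _ hq
    | zero =>
      intro a
      rw [map_zero, mul_zero, map_zero]
      exact Q.zero_mem
    | add x y _ _ hx hy =>
      intro a
      rw [map_add, mul_add, map_add]
      exact Q.add_mem (hx a) (hy a)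
    | smul c x _ hx =>
      intro a
      rw [smul_eq_mul, map_mul θ, ← mul_assoc]
      exact hx _
  have h1 : (1 : MvPolynomial (Sg n) K) ∈ Ideal.span ((fun q => aeval (subs A B) q) ''
      (Q : Set (MvPolynomial (Sg n) L))) := by
    rw [hcon]; trivial
  have h2 := key 1 h1 1
  apply hQ
  rw [Ideal.eq_top_iff_one]
  convert h2 using 1
  rw [map_one, mul_one]
  ext m
  rw [coeff_Lam, coeff_one, coeff_one]
  split_ifs
  · rw [hlam]
  · rw [map_zero]

end Pool.Agent.Y87.IL
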